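import Pool.Agent.Helper49.SZ.Complete
import Pool.Agent.Helper85.SB.N6A
import Pool.Agent.Helper80.SP.S1

/-! Smooth germs of codimension two: generators, independent linear parts. -/

namespace Pool.Agent.Helper49.SZ

open MvPowerSeries Pool.Agent.Helper38.EQ Pool.Agent.Helper38.GP Pool.Agent.Helper85.SB
open Pool.Agent.Helper80.SP (linIndep_iff linIndep_lift exists_sec_of_root tr_X tr_C symm_mem)

section

variable {n : ℕ} {K : Type} [Field K]

theorem linIndep_single {g : MvPowerSeries (Fin n) K}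
    (h1 : g ∈ IsLocalRing.maximalIdeal (MvPowerSeries (Fin n) K))
    (h2 : g ∉ IsLocalRing.maximalIdeal (MvPowerSeries (Fin n) K) ^ 2) :
    LinIndep (fun _ : Unit => g) := by
  rw [linIndep_iff]
  refine ⟨fun _ => h1, fun c hc => ?_⟩
  rw [Fintype.sum_unique] at hc
  funext i
  by_contra hne
  have h3 : IsUnit (C (c default) : MvPowerSeries (Fin n) K) := by
    rw [MvPowerSeries.isUnit_iff_constantCoeff, constantCoeff_C]
    exact isUnit_iff_ne_zero.2 hne
  rw [Ideal.unit_mul_mem_iff_mem _ h3] at hc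
  exact h2 hc

theorem LinIndep.comp_inj {ι κ : Type} {h : ι → MvPowerSeries (Fin n) K} (hh : LinIndep h)
    {f : κ → ι} (hf : Function.Injective f) : LinIndep (h ∘ f) :=
  ⟨fun _ => hh.1 _, hh.2.comp _ hf⟩

/-- Replace the generators: `h'` generates `h`. -/
theorem LinIndep.of_span {m : ℕ} {h h' : Fin m → MvPowerSeries (Fin n) K} (hh : LinIndep h)
    (h0 : ∀ i, h' i ∈ IsLocalRing.maximalIdeal (MvPowerSeries (Fin n) K))
    (hs : ∀ i, h i ∈ Ideal.span (Set.range h')) : LinIndep h' :=
  Pool.Agent.Helper38.ED.LI.of_span hh h0 hs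

theorem linIndep_mem {ι : Type} {h : ι → MvPowerSeries (Fin n) K} (hh : LinIndep h) (i : ι) :
    h i ∈ IsLocalRing.maximalIdeal (MvPowerSeries (Fin n) K) :=
  (mem_maximalIdeal_iff_constantCoeff _).2 (hh.1 i)

theorem linIndep_notMem_sq {ι : Type} {h : ι → MvPowerSeries (Fin n) K} (hh : LinIndep h) (i : ι) :
    h i ∉ IsLocalRing.maximalIdeal (MvPowerSeries (Fin n) K) ^ 2 :=
  Pool.Agent.Helper38.ED.LI.notMem_sq hh i

/-- Exchange of a generator. -/
theorem exists_exchange {g x y : MvPowerSeries (Fin n) K} (hxy : LinIndep ![x, y])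
    (hg : g ∈ Ideal.span {x, y})
    (hg2 : g ∉ IsLocalRing.maximalIdeal (MvPowerSeries (Fin n) K) ^ 2) :
    ∃ w, LinIndep ![g, w] ∧ Ideal.span {x, y} = Ideal.span {g, w} := by
  obtain ⟨a, b, hab⟩ := Ideal.mem_span_pair.1 hg
  have hx := linIndep_mem hxy 0
  have hy := linIndep_mem hxy 1
  change x ∈ _ at hx
  change y ∈ _ at hy
  have hgm : g ∈ IsLocalRing.maximalIdeal (MvPowerSeries (Fin n) K) := by
    rw [← hab]
    exact Ideal.add_mem _ (Ideal.mul_mem_left _ _ hx) (Ideal.mul_mem_left _ _ hy)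
  have key : ∀ u w : MvPowerSeries (Fin n) K, (u = x ∧ w = y) ∨ (u = y ∧ w = x) →
      ∀ c e, c * u + e * w = g → IsUnit c →
      LinIndep ![g, w] ∧ Ideal.span {x, y} = Ideal.span {g, w} := by
    intro u w huw c e hce hc
    obtain ⟨c', hc'⟩ := hc.exists_left_inv
    have hu : u = c' * g - c' * e * w := by
      rw [← hce]
      linear_combination (-u) * hc'
    have hs : Ideal.span {x, y} = Ideal.span {u, w} := by
      rcases huw with ⟨rfl, rfl⟩ | ⟨rfl, rfl⟩
      · rfl
      · rw [Set.pair_comm]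
    have hgw : g ∈ Ideal.span (Set.range ![g, w]) := Ideal.subset_span ⟨0, rfl⟩
    have hww : w ∈ Ideal.span (Set.range ![g, w]) := Ideal.subset_span ⟨1, rfl⟩
    have huu : u ∈ Ideal.span (Set.range ![g, w]) := by
      rw [hu]
      exact Ideal.sub_mem _ (Ideal.mul_mem_left _ _ hgw) (Ideal.mul_mem_left _ _ hww)
    constructor
    · refine LinIndep.of_span hxy (fun i => ?_) (fun i => ?_)
      · fin_cases i
        · exact hgm
        · rcases huw with ⟨-, rfl⟩ | ⟨-, rfl⟩
          · exact hy
          · exact hx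
      · rcases huw with ⟨rfl, rfl⟩ | ⟨rfl, rfl⟩
        · fin_cases i
          · exact huu
          · exact hww
        · fin_cases i
          · exact hww
          · exact huu
    · rw [hs]
      apply le_antisymm
      · rw [Ideal.span_le]
        rintro f (rfl | hf)
        · change f ∈ Ideal.span {g, w}
          rw [hu]
          exact Ideal.sub_mem _ (Ideal.mul_mem_left _ _ (Ideal.subset_span (by simp)))
            (Ideal.mul_mem_left _ _ (Ideal.subset_span (by simp)))
        · rw [Set.mem_singleton_iff] at hf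
          rw [hf]
          exact Ideal.subset_span (by simp)
      · rw [Ideal.span_le]
        rintro f (rfl | hf)
        · change f ∈ Ideal.span {u, w}
          rw [← hs]
          exact hg
        · rw [Set.mem_singleton_iff] at hf
          rw [hf]
          exact Ideal.subset_span (by simp)
  by_cases ha : IsUnit a
  · exact ⟨y, key x y (Or.inl ⟨rfl, rfl⟩) a b hab ha⟩
  · by_cases hb : IsUnit b
    · exact ⟨x, key y x (Or.inr ⟨rfl, rfl⟩) b a (by rw [← hab, add_comm]) hb⟩
    · refine absurd ?_ hg2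
      rw [← hab, pow_two]
      exact Ideal.add_mem _ (Ideal.mul_mem_mul ((IsLocalRing.mem_maximalIdeal _).2 ha) hx)
        (Ideal.mul_mem_mul ((IsLocalRing.mem_maximalIdeal _).2 hb) hy)

end

section

variable {n : ℕ} {K : Type} [Field K]

/-- If `e ∈ I` is transversal to the projection, `I` is generated by `e` and its image. -/
theorem span_of_img {p : Proj n K} {e : MvPowerSeries (Fin (n + 1)) K} (s : Sec p e)
    {I : Ideal (MvPowerSeries (Fin (n + 1)) K)} (he : e ∈ I) {J : Set (R1 n K)}
    (hJ : p.img I = Ideal.span J) : I = Ideal.span (insert e (up p '' J)) := by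
  apply le_antisymm
  · intro f hf
    have he' : e ∈ Ideal.span (insert e (up p '' J)) := Ideal.subset_span (Set.mem_insert _ _)
    refine s.mem_of_pull_mem he' ?_
    have h1 : s.pull f ∈ p.img I := s.pull_mem_img he hf
    rw [hJ] at h1
    have h2 : Ideal.span J ≤ p.img (Ideal.span (insert e (up p '' J))) := by
      rw [Ideal.span_le]
      intro a ha
      exact (up_mem_iff p).2 (Ideal.subset_span (Set.mem_insert_of_mem _ ⟨a, ha, rfl⟩))
    exact h2 h1
  · rw [Ideal.span_le]
    rintro f (rfl | ⟨a, ha, rfl⟩)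
    · exact he
    · refine (up_mem_iff p).1 ?_
      rw [hJ]
      exact Ideal.subset_span ha

/-- The image is generated by the restrictions of the other generators. -/
theorem img_of_span {p : Proj n K} {e : MvPowerSeries (Fin (n + 1)) K} (s : Sec p e)
    {I : Ideal (MvPowerSeries (Fin (n + 1)) K)} {J : Set (MvPowerSeries (Fin (n + 1)) K)}
    (hJ : I = Ideal.span (insert e J)) : p.img I = Ideal.span (s.pull '' J) := by
  have he : e ∈ I := by
    rw [hJ]
    exact Ideal.subset_span (Set.mem_insert _ _)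
  apply le_antisymm
  · intro b hb
    have h1 : up p b ∈ I := (up_mem_iff p).1 hb
    have h2 : s.pull (up p b) = b := pull_up s b
    rw [← h2]
    rw [hJ] at h1
    have h3 : Ideal.span (insert e J) ≤ Ideal.comap s.pull (Ideal.span (s.pull '' J)) := by
      rw [Ideal.span_le]
      rintro f (rfl | hf)
      · change s.pull f ∈ Ideal.span (s.pull '' J)
        rw [s.pull_self]
        exact Ideal.zero_mem _
      · exact Ideal.subset_span ⟨f, hf, rfl⟩
    exact h3 h1
  · rw [Ideal.span_le]
    rintro _ ⟨f, hf, rfl⟩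
    refine s.pull_mem_img he ?_
    rw [hJ]
    exact Ideal.subset_span (Set.mem_insert_of_mem _ hf)

/-- The axis of an equisingular family of plane curves. -/
theorem equi_one_axis {d : ℕ} {𝒞 : ProjClass K} {g : MvPowerSeries (Fin (d + 2)) K}
    {I : Ideal (MvPowerSeries (Fin (d + 2)) K)} (h : Equi 𝒞 1 (d + 2) g I) :
    ∃ x y, LinIndep ![x, y] ∧ I = Ideal.span {x, y} := by
  have hItop : I ≠ ⊤ := h.ne_top
  obtain ⟨-, z, -, hpar, hperm, g₂, I₂, ⟨σ, F, hσ, -, -, hI₂⟩, hg₂, hg₂2, hI₂'⟩ := h
  let p : Proj (d + 1) K := ⟨σ.equiv⟩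
  obtain ⟨τ, hτ, hτI⟩ := exists_graph p hpar.1 hσ hItop hperm
  have hyI : p.σ.symm (PowerSeries.X - PowerSeries.C τ) ∈ I := by
    have h1 : PowerSeries.X - PowerSeries.C τ =
        p.σ (p.σ.symm (PowerSeries.X - PowerSeries.C τ)) := by rw [AlgEquiv.apply_symm_apply]
    rw [h1, mem_map_algEquiv] at hτI
    exact hτI
  obtain ⟨s, hs⟩ := exists_sec_of_root p hτ
  have himg : p.img I = Ideal.span {g₂} := by
    rw [← hI₂', hI₂]
    rfl
  have hI := span_of_img s hyI himg
  rw [Set.image_singleton] at hI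
  refine ⟨p.σ.symm (PowerSeries.X - PowerSeries.C τ), up p g₂, ?_, hI⟩
  have hym : p.σ.symm (PowerSeries.X - PowerSeries.C τ) ∈
      IsLocalRing.maximalIdeal (MvPowerSeries (Fin (d + 2)) K) :=
    IsLocalRing.le_maximalIdeal hItop hyI
  have hyt : p.tr (p.σ.symm (PowerSeries.X - PowerSeries.C τ)) ≠ 0 := by
    unfold Proj.tr
    rw [AlgEquiv.apply_symm_apply, map_sub, PowerSeries.coeff_one_X, PowerSeries.coeff_C,
      if_neg one_ne_zero, sub_zero, map_one]
    exact one_ne_zero
  have h1 := linIndep_lift p (linIndep_single hg₂ hg₂2) hym hyt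
  have h2 : (![p.σ.symm (PowerSeries.X - PowerSeries.C τ), up p g₂] :
      Fin 2 → MvPowerSeries (Fin (d + 2)) K) =
      (fun o : Option Unit => o.elim (p.σ.symm (PowerSeries.X - PowerSeries.C τ))
        fun _ => p.σ.symm (PowerSeries.C g₂)) ∘ (![none, some ()] : Fin 2 → Option Unit) := by
    funext k
    fin_cases k
    · rfl
    · rfl
  rw [h2]
  refine LinIndep.comp_inj h1 ?_
  intro a b hab
  fin_cases a <;> fin_cases b <;> first | rfl | (exfalso; simp at hab)

/-- Smooth germs are irreducible. -/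
theorem isPrime_span_pair {d : ℕ} {x y : MvPowerSeries (Fin (d + 2)) K} (h : LinIndep ![x, y]) :
    (Ideal.span {x, y}).IsPrime := by
  classical
  obtain ⟨τ, h0, h1⟩ := exists_aut_two h
  have h2 : Ideal.span {x, y} = Ideal.map τ (coordIdeal K ({0, 1} : Finset (Fin (d + 2)))) := by
    rw [coordIdeal, Ideal.map_span, Finset.coe_pair, Set.image_pair, Set.image_pair, h0, h1]
  rw [h2]
  have := Regular_prime (K := K) ({0, 1} : Finset (Fin (d + 2)))
  exact Ideal.map_isPrime_of_equiv τ

end

end Pool.Agent.Helper49.SZ
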