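import Pool.Agent.Helper80.SP.Coord

/-! Completion of independent power series to a system of coordinates. -/

namespace Pool.Agent.Helper49.SZ

open MvPowerSeries Pool.Agent.Helper38.EQ Pool.Agent.Helper38.GP

/-- Completion of independent power series to a system of coordinates. -/
theorem exists_aut_of_linIndep {n m : ℕ} {K : Type} [Field K] {h : Fin m → MvPowerSeries (Fin n) K}
    (hh : LinIndep h) : ∃ (τ : MvPowerSeries (Fin n) K ≃ₐ[K] MvPowerSeries (Fin n) K)
      (j : Fin m → Fin n), Function.Injective j ∧ ∀ i, τ (X (j i)) = h i := by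
  classical
  let v : Fin m → Fin n → K := fun i j => coeff (Finsupp.single j 1) (h i)
  have hv : LinearIndependent K v := hh.2
  let b := Module.Basis.sumExtend hv
  let e : (Fin m ⊕ Module.Basis.sumExtendIndex hv) ≃ Fin n := b.indexEquiv (Pi.basisFun K (Fin n))
  have hb : ∀ i, b (Sum.inl i) = v i := fun i => by
    simp only [b, Module.Basis.sumExtend]
    rw [Module.Basis.reindex_apply, Module.Basis.extend_apply_self]
    rfl
  let y : Fin n → MvPowerSeries (Fin n) K := fun k =>
    Sum.elim h (fun x => ∑ j, C (b (Sum.inr x) j) * X j) (e.symm k)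
  have hy : ∀ i, y (e (Sum.inl i)) = h i := fun i => by
    simp [y]
  have h0 : ∀ k, constantCoeff (y k) = 0 := by
    intro k
    obtain ⟨s, rfl⟩ := e.surjective k
    rcases s with i | x
    · rw [hy]
      exact hh.1 i
    · simp [y]
  have hlin : ∀ s j, coeff (Finsupp.single j 1) (y (e s)) = b s j := by
    intro s j
    rcases s with i | x
    · rw [hy, hb]
    · simp only [y, Equiv.symm_apply_apply, Sum.elim_inr, map_sum, coeff_C_mul]
      rw [Finset.sum_eq_single j]
      · rw [coeff_X, if_pos rfl, mul_one]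
      · intro k _ hk
        rw [coeff_X, if_neg, mul_zero]
        intro h3
        exact hk ((Finsupp.single_left_injective one_ne_zero h3).symm)
      · intro h3
        exact absurd (Finset.mem_univ _) h3
  have hdet : (Matrix.of fun i j => coeff (Finsupp.single j 1) (y i)).det ≠ 0 := by
    have h1 : LinearIndependent K
        (Matrix.of fun i j => coeff (Finsupp.single j 1) (y i) : Matrix (Fin n) (Fin n) K).row := by
      have h2 : (Matrix.of fun i j => coeff (Finsupp.single j 1) (y i) :
          Matrix (Fin n) (Fin n) K).row = b ∘ e.symm := by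
        funext i j
        obtain ⟨s, rfl⟩ := e.surjective i
        simp only [Matrix.row, Matrix.of_apply, Function.comp, Equiv.symm_apply_apply]
        exact hlin s j
      rw [h2]
      exact b.linearIndependent.comp _ e.symm.injective
    rw [Matrix.linearIndependent_rows_iff_isUnit, Matrix.isUnit_iff_isUnit_det] at h1
    exact h1.ne_zero
  obtain ⟨τ, hτ⟩ := exists_algEquiv y (span_eq_of_linear y h0 hdet)
  exact ⟨τ, fun i => e (Sum.inl i), fun i i' hi => Sum.inl_injective (e.injective hi),
    fun i => by rw [hτ, hy]⟩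

/-- Two independent power series are the first two coordinates. -/
theorem exists_aut_two {d : ℕ} {K : Type} [Field K] {a b : MvPowerSeries (Fin (d + 2)) K}
    (h : LinIndep ![a, b]) :
    ∃ τ : MvPowerSeries (Fin (d + 2)) K ≃ₐ[K] MvPowerSeries (Fin (d + 2)) K,
      τ (X 0) = a ∧ τ (X 1) = b := by
  classical
  obtain ⟨τ, j, hj, hτ⟩ := exists_aut_of_linIndep h
  have hne : j 1 ≠ j 0 := fun h1 => absurd (hj h1) (by decide)
  have h01 : (1 : Fin (d + 2)) ≠ 0 := by simp
  set c := Equiv.swap 0 (j 0) (j 1) with hc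
  have hc0 : c ≠ 0 := by
    intro h1
    apply hne
    have h2 : Equiv.swap 0 (j 0) c = j 1 := by rw [hc, Equiv.swap_apply_self]
    rw [← h2, h1, Equiv.swap_apply_left]
  let e : Equiv.Perm (Fin (d + 2)) := Equiv.swap 0 (j 0) * Equiv.swap 1 c
  have he0 : e 0 = j 0 := by
    change Equiv.swap 0 (j 0) (Equiv.swap 1 c 0) = j 0
    rw [Equiv.swap_apply_of_ne_of_ne h01.symm hc0.symm, Equiv.swap_apply_left]
  have he1 : e 1 = j 1 := by
    change Equiv.swap 0 (j 0) (Equiv.swap 1 c 1) = j 1
    rw [Equiv.swap_apply_left, hc, Equiv.swap_apply_self]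
  let ρ : MvPowerSeries (Fin (d + 2)) K ≃ₐ[K] MvPowerSeries (Fin (d + 2)) K :=
    MvPowerSeries.renameEquiv K e
  have hρ : ∀ k, ρ (X k) = X (e k) := fun k => MvPowerSeries.rename_X e k
  refine ⟨ρ.trans τ, ?_, ?_⟩
  · rw [AlgEquiv.trans_apply, hρ, he0, hτ]
    rfl
  · rw [AlgEquiv.trans_apply, hρ, he1, hτ]
    rfl

end Pool.Agent.Helper49.SZ
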