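import Pool.Agent.Helper49.SZ.Tang
import Pool.Agent.Helper38.SZ.Smooth0

/-! Unions of smooth sheets, codimension `2`: the case of a smooth critical variety. -/

namespace Pool.Agent.Helper49.SZ

open MvPowerSeries Pool.Agent.Helper38.EQ Pool.Agent.Helper38.GP

/-- (Z5) Sections `s i` of the old projection `p` over `e i = 0`, roots `r_i`; all `r_i - r_j` (`i ≠ j`)
divide a power of the discriminant, hence of the prime `g`, so they are powers `g ^ k`, `k ≥ 1`, up
to units; `rad (e i, e j) = (e i, g~) =: 𝔭`, `g~ = σ⁻¹ (C g)`, the same ideal for all `i ≠ j`, and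
there is a pair `i ≠ j` (the discriminant is not a unit). All `e i` and `g~` are in `I`
(`∏ (τ - r_i) ∈ I'`, which is prime, as in `Helper80/SP/S1`), and `I = (e_0, g~, w)` with independent
linear parts. New projection `p'`, sections `s' i`: `rad (r'_i - r'_j)` is generated by
`(s' i).pull g~`, of order one, and `p'.img 𝔭 = (g')` for all `i`; so `g'` generates the radical of the
discriminant and `p'.img I = (g', (s' 0).pull w)`. Then (Z4). -/
theorem equiProj_smooth {d m : ℕ} {K : Type} [Field K] [IsAlgClosed K] [CharZero K]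
    {e : Fin m → MvPowerSeries (Fin (d + 3)) K}
    (he : ∀ i, e i ∈ IsLocalRing.maximalIdeal (MvPowerSeries (Fin (d + 3)) K) ∧
      e i ∉ IsLocalRing.maximalIdeal (MvPowerSeries (Fin (d + 3)) K) ^ 2)
    {I : Ideal (MvPowerSeries (Fin (d + 3)) K)} (hf : ∏ i, e i ∈ I)
    {z : Fin (d + 2) → MvPowerSeries (Fin (d + 3)) K} (hT : Transversal (∏ i, e i) z)
    (hpar : IsParams (∏ i, e i) z) (hperm : Permissible I z)
    {g : MvPowerSeries (Fin (d + 2)) K} {I' : Ideal (MvPowerSeries (Fin (d + 2)) K)}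
    (hc : IsCrit (∏ i, e i) I z g I')
    (hg : g ∉ IsLocalRing.maximalIdeal (MvPowerSeries (Fin (d + 2)) K) ^ 2)
    (hE : Equi (Formal K) 1 (d + 2) g I')
    {z' : Fin (d + 2) → MvPowerSeries (Fin (d + 3)) K} {v : Fin (d + 3) → K}
    (hz' : LinIndep z') (hv : ∀ i, lin (z' i) v = 0) (hev : ∀ i, lin (e i) v ≠ 0) :
    EquiProj (Formal K) 1 (∏ i, e i) I z' :=
  Pool.Agent.Helper38.SZ.equiProj_smooth_h38 he hf hT hpar hperm hc hg hE hz' hv hev

end Pool.Agent.Helper49.SZ
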