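import Pool.Agent.Helper80.SZ.Tang

/-! A smooth hypersurface germ is equisingular along every smooth germ of codimension one, by a
tangential projection. -/

namespace Pool.Agent.Helper49.SZ

open MvPowerSeries Pool.Agent.Helper38.EQ Pool.Agent.Helper38.GP

/-- (Z4) Complete `g, h` to coordinates `g, h, t_j` and take `z = (g + h ^ 2, t_j)`, `σ h = X`,
`σ (z i) = C (X i)`: `σ g = - (X ^ 2 - C (X 0))`, the Weierstrass polynomial is `X ^ 2 - X_0`, its
discriminant `4 X_0`, and the image of `(g, h)` is `(X_0)`. -/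
theorem equi_tang {d : ℕ} {K : Type} [Field K] [IsAlgClosed K] [CharZero K]
    {g h : MvPowerSeries (Fin (d + 2)) K} (hgh : LinIndep ![g, h]) :
    Equi (Formal K) 1 (d + 2) g (Ideal.span {g, h}) :=
  Pool.Agent.Helper80.SZ.equi_tang hgh

end Pool.Agent.Helper49.SZ
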